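import Pool.Agent.E8helper61.EF.Stm2

/-!
# The exact sum (project EF, MP_4c8542_co)
-/

set_option autoImplicit false

namespace Pool.Agent.E8helper38.EF

open Finset
open Pool.Agent.E8helper61.EF

/-- reindexing of a triangular sum -/
theorem tri (t : ℕ) (f : ℕ → ℕ → ℕ) : ∑ s ∈ range (t + 1), ∑ i ∈ range (t - s + 1), f s i =
    ∑ m ∈ range (t + 1), ∑ s ∈ range (m + 1), f s (m - s) := by
  have h1 : ∑ m ∈ range (t + 1), ∑ s ∈ range (m + 1), f s (m - s) =
      ∑ s ∈ range (t + 1), ∑ m ∈ Ico s (t + 1), f s (m - s) := by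
    refine sum_comm' ?_
    intro m s
    simp only [mem_range, mem_Ico]
    omega
  rw [h1]
  refine sum_congr rfl fun s hs => ?_
  rw [mem_range] at hs
  rw [sum_Ico_eq_sum_range]
  have h2 : t + 1 - s = t - s + 1 := by omega
  rw [h2]
  refine sum_congr rfl fun i _ => ?_
  rw [Nat.add_sub_cancel_left]

theorem bb_eq {k d : ℕ} (hk : 1 ≤ k) (m : ℕ) {s : ℕ} (hs : s ≤ d / k) :
    bb k m (d - k * s) = ∑ i ∈ range (d / k - s + 1),
      m.choose i * 2 ^ (d % k + k * (d / k - (s + i))) := by
  have hd : k * (d / k) + d % k = d := Nat.div_add_mod d k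
  have hrk : d % k < k := Nat.mod_lt _ hk
  have h1 : d - k * s = k * (d / k - s) + d % k := by
    have h2 : k * s ≤ k * (d / k) := Nat.mul_le_mul_left k hs
    rw [Nat.mul_sub]
    omega
  have h2 : (d - k * s) / k = d / k - s := by
    rw [h1, Nat.mul_add_div (by omega), Nat.div_eq_of_lt hrk, add_zero]
  unfold bb
  rw [h2]
  refine sum_congr rfl fun i hi => ?_
  rw [mem_range] at hi
  congr 2
  rw [h1]
  have h3 : k * (d / k - s) = k * (d / k - (s + i)) + k * i := by
    rw [← Nat.mul_add]
    congr 1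
    omega
  omega

theorem vand : VandStatement := by
  intro n k d hk hkd hn
  have h0 : (n - 2 * d).choose (d / k) * 2 ^ (d % k) =
      (n - 2 * d).choose (d / k) * bb k (2 * d) (d - k * (d / k)) := by
    rw [bb_eq hk (2 * d) le_rfl]
    simp
  rw [h0, add_comm, ← sum_range_succ
    (fun s => (n - 2 * d).choose s * bb k (2 * d) (d - k * s)) (d / k)]
  have h1 : ∀ s ∈ range (d / k + 1), (n - 2 * d).choose s * bb k (2 * d) (d - k * s) =
      ∑ i ∈ range (d / k - s + 1), (n - 2 * d).choose s * ((2 * d).choose i *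
        2 ^ (d % k + k * (d / k - (s + i)))) := by
    intro s hs
    rw [mem_range] at hs
    rw [bb_eq hk (2 * d) (by omega), mul_sum]
  rw [sum_congr rfl h1, tri, mul_sum]
  refine sum_congr rfl fun m hm => ?_
  have h2 : ∀ s ∈ range (m + 1), (n - 2 * d).choose s * ((2 * d).choose (m - s) *
      2 ^ (d % k + k * (d / k - (s + (m - s))))) =
      2 ^ (d % k) * 2 ^ (k * (d / k - m)) * ((n - 2 * d).choose s * (2 * d).choose (m - s)) := by
    intro s hs
    rw [mem_range] at hs
    have h3 : s + (m - s) = m := by omega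
    rw [h3, pow_add]
    ring
  rw [sum_congr rfl h2, ← mul_sum, mul_assoc]
  congr 2
  have h4 : n.choose m = ((n - 2 * d) + 2 * d).choose m := by
    congr 1
    omega
  rw [h4, Nat.add_choose_eq, Finset.Nat.sum_antidiagonal_eq_sum_range_succ
    (fun a b => (n - 2 * d).choose a * (2 * d).choose b)]

end Pool.Agent.E8helper38.EF
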